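import Mathlib
import Pool.Agent.Run7.h460.JL.Fin

/-!
# The `3`-part of the Birch and Swinnerton-Dyer formula over `ℚ(√-3)` for the cubic twists in
# arbitrary dense sets

`K` is the field of third roots of unity, `E_δ : y² + δ y = x³` for `δ ∈ 𝓞 K` prime to `3`, a cubic
twist of `y² + y = x³` that only depends on `δ` up to cubes. An element of `𝓞 K` is admissible if it
is cube-free and congruent to a third root of unity modulo `3`. The class of an admissible element `x`
is given by `x` modulo `3` and the norm of `x` modulo `9`; there are nine classes, and the class of `1`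
is excluded below.

`ThreePart δ` says for `E_δ`, with a globally minimal equation `E_D`, `δ = D x³`: `L(E_D / K, s)` has an
entire continuation with `L(E_D / K, 1) ≠ 0`, `E_D(K)` is finite, `Ш(E_D / K)[3^∞] = 0` and the quotient
of `L(E_D / K, 1)` by `Ω ∏ c_v / (√|Δ(K)| |E_D(K)_tors|²)` is a unit at all the valuations above `3`:
the `3`-part of the conjecture, up to the rationality of the quotient. Let
`p = ∏_{i ≥ 0} (1 - 3^{-(2 i + 1)}) = 0.6390…`.

Let `A` be an ARBITRARY set of admissible elements of positive upper density in one of the eight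
classes (ordered by the norm).

* Mixing: let `T` be a finite set of admissible elements and `V ⊆ T`. For all but finitely many
  admissible `m` (such that no twist `a m t` is in the excluded class) the set of the `a ∈ A` such that
  `ThreePart (a m t)` holds for the `t ∈ V` and fails for the `t ∈ T \ V` has an upper density of at
  least `p^|V| (1 - p)^|T \ V|` times the upper density of `A`, up to `ε`.
* Universality: for every set `Φ` of finite sets of natural numbers there are different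
  `d_0, d_1, … ∈ A` such that `ThreePart (∏_{i ∈ S} d_i)` holds exactly for the `S ∈ Φ`, for all the
  finite sets `S` with at least two elements and `|S|` prime to `3` at once.

The law of the `3`-parts in the families of ALL the elements of a class is the content of
`MP_9ab903_nt/ThreePartCubicTwists` (starting file, one curve) and `MP_9ab903_nt/JointThreePart` (same
run, several curves); these laws say nothing about a given set `A`. The deduction of a statement on all
dense sets from a joint law is due to helper428 (same run: `2`-part for the quadratic twists of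
`X_0(49)` over `ℚ`, `MP_4a9ea6_nt` and related pages, `Run7/h428`); the files `Mix`, `Uni` are versions
of it for an arbitrary group of classes.
-/

set_option autoImplicit false

namespace Pool.Agent.Results.MP_e996df_nt.DenseSetsThreePart

open NumberField IsDedekindDomain WeierstrassCurve
open Pool.Agent.TH841.NF.D (Sha)
open Pool.Agent.Y696 (NonsingRed)
open scoped Classical

/-- The curve `E_D : y² + D y = x³`. -/
def curve {K : Type} [Field K] (D : K) : WeierstrassCurve K := ⟨0, 0, D, 0, 0⟩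

variable {K : Type} [Field K] [NumberField K]

/-- `a` is cube-free and congruent to a third root of unity modulo `3`. -/
def Admissible (a : 𝓞 K) : Prop :=
  (∀ x : 𝓞 K, x ^ 3 ∣ a → IsUnit x) ∧ ∃ ω : 𝓞 K, ω ^ 3 = 1 ∧ (3 : 𝓞 K) ∣ a - ω

/-- `x` and `y` are in the same class: congruent modulo `3`, norms congruent modulo `9`. -/
def SameClass (x y : 𝓞 K) : Prop :=
  (3 : 𝓞 K) ∣ x - y ∧ (9 : ℤ) ∣ Algebra.norm ℤ x - Algebra.norm ℤ y

/-- `x` is in the excluded class: `1` modulo `3` with a norm that is `1` modulo `9`. -/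
def IsOne (x : 𝓞 K) : Prop := (3 : 𝓞 K) ∣ x - 1 ∧ (9 : ℤ) ∣ Algebra.norm ℤ x - 1

/-- `x` is a unit times a cube. -/
def UnitTimesCube (x : 𝓞 K) : Prop := ∃ u y : 𝓞 K, IsUnit u ∧ x = u * y ^ 3

/-- The equation `W` is minimal at every finite place `v`, the number `c v` is the index of the
group of the points of nonsingular reduction in `W(K_v)` (the Tamagawa number), and `c v = 1` for
all but finitely many `v`. -/
def IsTamagawa (W : WeierstrassCurve K) (c : HeightOneSpectrum (𝓞 K) → ℕ) : Prop :=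
  (∀ v : HeightOneSpectrum (𝓞 K),
    IsMinimal (v.adicCompletionIntegers K) (W.baseChange (v.adicCompletion K)) ∧
    ∃ H : AddSubgroup (W.baseChange (v.adicCompletion K)).toAffine.Point,
      (∀ P, P ∈ H ↔ NonsingRed Valued.v (W.baseChange (v.adicCompletion K)) P) ∧
      H.index = c v) ∧
  {v | c v ≠ 1}.Finite

/-- `E_D(K)` is finite and the `3`-primary part of `Ш(E_D / K)` is trivial. -/
def FiniteAndTrivial (D : 𝓞 K) : Prop :=
  Finite (curve (D : K)).toAffine.Point ∧ ∀ (n : ℕ) (x : Sha (curve (D : K))), 3 ^ n • x = 0 → x = 0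

/-- The order of the torsion subgroup of `E_D(K)`. -/
noncomputable def torsionOrder (D : 𝓞 K) : ℕ :=
  Nat.card (AddCommGroup.torsion (curve (D : K)).toAffine.Point)

/-- The torsion subgroup of `E_D(K)` is finite, of order divisible by `3` and not by `9`; `Lf` is an
entire function equal to `L(E_D / K, s)` for `Re s > 3 / 2`; for every embedding `σ` of `K` and every
pair of periods `ω₁, ω₂` of a lattice `Λ` with `g₂ = 0`, `g₃ = - σ(D)²` (the period lattice of
`E_D`; `A = |Im (conj ω₁ ω₂)|` is the area of a period parallelogram, and `2 A` is the factor of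
`Ω(E_D)` at the complex place; such a `Λ` exists)
`Lf 1 = ρ · 2 A · ∏ c_v / (√|Δ(K)| |E_D(K)_tors|²)`, where `ρ` is integral at every valuation `v` of
`ℂ` above `3`, and a unit if and only if `E_D(K)` is finite and `Ш(E_D / K)[3^∞] = 0`. -/
def Law (D : 𝓞 K) : Prop :=
  Finite (AddCommGroup.torsion (curve (D : K)).toAffine.Point) ∧
  padicValNat 3 (torsionOrder D) = 1 ∧
  ∃ (Lf : ℂ → ℂ) (c : HeightOneSpectrum (𝓞 K) → ℕ),
    Differentiable ℂ Lf ∧
    (∀ s : ℂ, 3 / 2 < s.re →
      LSeriesSummable ((fun n : ℤ => (n : ℂ)) ∘ (curve (D : K)).LFunction) s ∧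
        Lf s = (curve (D : K)).LSeries s) ∧
    (FiniteAndTrivial D → Lf 1 ≠ 0) ∧
    IsTamagawa (curve (D : K)) c ∧
    ∀ σ : K →+* ℂ, (∃ Λ : PeriodPair, Λ.g₂ = 0 ∧ Λ.g₃ = -(σ D) ^ 2) ∧
      ∀ Λ : PeriodPair, Λ.g₂ = 0 → Λ.g₃ = -(σ D) ^ 2 → ∃ ρ : ℂ,
        Lf 1 = ρ * (((2 * |((starRingEnd ℂ) Λ.ω₁ * Λ.ω₂).im| : ℝ) : ℂ) * ((∏ᶠ w, c w : ℕ) : ℂ) /
          (((Real.sqrt |(discr K : ℝ)| : ℝ) : ℂ) * (torsionOrder D : ℂ) ^ 2)) ∧
        ∀ (Γ : Type) [LinearOrderedCommGroupWithZero Γ] (v : Valuation ℂ Γ), v 3 < 1 →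
          v ρ ≤ 1 ∧ (v ρ = 1 ↔ FiniteAndTrivial D)

/-- `δ = D x³` with `D` admissible and not a unit, so that `E_D` is isomorphic to `E_δ`, and the law
holds for `E_D`. -/
def IsModel (δ D : 𝓞 K) : Prop :=
  (∃ x : 𝓞 K, x ≠ 0 ∧ δ = D * x ^ 3) ∧ Admissible D ∧ ¬ IsUnit D ∧ Law D

/-- The `3`-part of the conjecture for `E_δ`, with a quotient that is a unit above `3`. -/
def ThreePart (δ : 𝓞 K) : Prop := ∃ D : 𝓞 K, IsModel δ D ∧ FiniteAndTrivial D

/-- The admissible elements of norm at most `X` in the class of `r`. -/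
def Ball (r : 𝓞 K) (X : ℕ) : Set (𝓞 K) :=
  {a | Algebra.norm ℤ a ≤ X ∧ Admissible a ∧ SameClass a r}

/-- The upper density of `A` in the class of `r`, with respect to the norm, is at least `δ`. -/
def UpperDensityGE (r : 𝓞 K) (A : Set (𝓞 K)) (δ : ℝ) : Prop :=
  ∀ ε : ℝ, 0 < ε → ∃ᶠ X : ℕ in Filter.atTop,
    (δ - ε) * ((Ball r X).ncard : ℝ) ≤ ((Ball r X ∩ A).ncard : ℝ)

/-- The constant `p`. -/
noncomputable def p : ℝ := ∏' i : ℕ, (1 - (1 / 3 : ℝ) ^ (2 * i + 1))

/-- **Main theorem.** -/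
theorem result (K : Type) [Field K] [NumberField K] [IsCyclotomicExtension {3} ℚ K] :
    ((0.639 : ℝ) < p ∧ p < 0.6391) ∧
    -- the formula for all the products of admissible elements that are not in the excluded class
    (∀ (n : ℕ) (a : Fin n → 𝓞 K), (∀ i, Admissible (a i)) → ¬ IsOne (∏ i, a i) →
      ¬ UnitTimesCube (∏ i, a i) →
      (∃ D : 𝓞 K, IsModel (∏ i, a i) D ∧
        (FiniteAndTrivial D ↔ FiniteAndTrivial (∏ i, a i))) ∧
      (ThreePart (∏ i, a i) ↔ FiniteAndTrivial (∏ i, a i))) ∧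
    (∀ b : 𝓞 K, b ≠ 0 → {a : 𝓞 K | Admissible a ∧ UnitTimesCube (a * b)}.Finite) ∧
    ∀ r : 𝓞 K, Admissible r → ¬ IsOne r →
      -- the classes are not small
      ((∀ X, (Ball r X).Finite) ∧ ∃ (C : ℝ) (X₀ : ℕ), 0 < C ∧ ∀ X : ℕ, X₀ ≤ X →
        C * (X : ℝ) ≤ ((Ball r X).ncard : ℝ)) ∧
      -- mixing
      (∀ T V : Finset (𝓞 K), (∀ t ∈ T, Admissible t) → V ⊆ T →
        ∀ (A : Set (𝓞 K)) (δ ε : ℝ), UpperDensityGE r A δ → 0 < ε →
          {m : 𝓞 K | Admissible m ∧ (∀ t ∈ T, ¬ IsOne (r * m * t)) ∧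
            ¬ UpperDensityGE r {a | a ∈ A ∧ ∀ t ∈ T, (ThreePart (a * m * t) ↔ t ∈ V)}
              (p ^ V.card * (1 - p) ^ (T.card - V.card) * δ - ε)}.Finite) ∧
      -- universality
      ∀ (A : Set (𝓞 K)) (δ : ℝ), 0 < δ → UpperDensityGE r A δ → ∀ Φ : Set (Finset ℕ),
        ∃ d : ℕ → 𝓞 K, Function.Injective d ∧
          (∀ i, d i ∈ A ∧ Admissible (d i) ∧ SameClass (d i) r) ∧
          (∀ S : Finset ℕ, S.Nonempty → ¬ UnitTimesCube (∏ i ∈ S, d i)) ∧
          ∀ S : Finset ℕ, 2 ≤ S.card → ¬ 3 ∣ S.card → (ThreePart (∏ i ∈ S, d i) ↔ S ∈ Φ) := by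
  obtain ⟨⟨j, -⟩, -⟩ := Pool.Agent.Y455.CTK.jex K
  refine ⟨⟨Run7.h460.JL.c9_spec.1, Run7.h460.JL.c9_spec.2.1⟩, ?_, ?_, fun r hr h1 =>
    ⟨Run7.h460.JL.finN K r hr, ?_, ?_⟩⟩
  · exact fun n a ha h1 h2 => Run7.h460.JL.finP K n a ha h1 h2
  · exact fun b hb => Run7.h460.JL.few_uo j hb
  · exact fun T V hT hV A δ ε hA hε => Run7.h460.JL.finM K r hr h1 T V hT hV A δ ε hA hε
  · exact fun A δ hδ hA Φ => Run7.h460.JL.finU K r hr h1 A δ hδ hA Φ

end Pool.Agent.Results.MP_e996df_nt.DenseSetsThreePart
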